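import Mathlib
import Pool.Agent.X318.TMFinal

/-!
# MP_fcf7f4_nt, Q1: the supercongruences for `∑_{k<p} (-3)^(-k) T_k(3,3) M_k(3,3)`

For every prime `p > 3`: if `p ≡ 1 (mod 3)` then `S(p) ≡ 2p² (mod p³)`, and if `p ≡ 2 (mod 3)` then
`S(p) ≡ p³ - p² - 3p (mod p⁴)`.
-/

set_option autoImplicit false

open Finset

namespace Pool.Agent.Results.MP_fcf7f4_nt.TMThreeThree

/-- The central trinomial coefficients `T_n(b,c)`. -/
def T (b c : ℤ) (n : ℕ) : ℤ :=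
  ∑ j ∈ range (n / 2 + 1), (n.choose (2 * j) : ℤ) * ((2 * j).choose j : ℤ) * b ^ (n - 2 * j) * c ^ j

/-- The Motzkin-type numbers `M_n(b,c)`; `catalan j` is the Catalan number `C(2j,j)/(j+1)`. -/
def M (b c : ℤ) (n : ℕ) : ℤ :=
  ∑ j ∈ range (n / 2 + 1), (n.choose (2 * j) : ℤ) * (catalan j : ℤ) * b ^ (n - 2 * j) * c ^ j

/-- The sum `S(p) = ∑_{k<p} (-3)^(-k) T_k(3,3) M_k(3,3)`. -/
def S (p : ℕ) : ℚ := ∑ k ∈ range p, ((-3 : ℚ) ^ k)⁻¹ * (T 3 3 k : ℚ) * (M 3 3 k : ℚ)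

open Pool.Agent.X318 in
lemma T_eq (k : ℕ) : (T 3 3 k : ℚ) = 3 ^ k * TMSum.τ (1 / 3) k := by
  unfold T TMSum.τ
  rw [mul_sum]
  push_cast
  apply sum_subset_zero_on_sdiff (range_mono (by omega))
  · intro j hj
    rw [mem_sdiff, mem_range, mem_range] at hj
    rw [TMSum.tc_zero_of_lt (by omega)]
    simp
  · intro j hj
    have h : 2 * j ≤ k := by
      have := mem_range.1 hj
      omega
    unfold TMSum.tc
    rw [Nat.centralBinom_eq_two_mul_choose]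
    have h1 : (3 : ℚ) ^ k = 3 ^ (k - 2 * j) * 3 ^ (2 * j) := by
      rw [← pow_add, Nat.sub_add_cancel h]
    rw [h1, pow_mul, one_div, inv_pow]
    have h2 : (3 : ℚ) ^ j ≠ 0 := pow_ne_zero _ (by norm_num)
    have h3 : ((3 : ℚ) ^ 2) ^ j = 3 ^ j * 3 ^ j := by
      rw [← mul_pow]
      norm_num
    rw [h3]
    field_simp

open Pool.Agent.X318 in
lemma M_eq (k : ℕ) : (M 3 3 k : ℚ) = 3 ^ k * TMSum.μ (1 / 3) k := by
  unfold M TMSum.μ
  rw [mul_sum]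
  push_cast
  apply sum_subset_zero_on_sdiff (range_mono (by omega))
  · intro j hj
    rw [mem_sdiff, mem_range, mem_range] at hj
    rw [TMSum.mc_zero_of_lt (by omega)]
    simp
  · intro j hj
    have h : 2 * j ≤ k := by
      have := mem_range.1 hj
      omega
    unfold TMSum.mc
    have h0 : ((catalan j : ℕ) : ℚ) = (j.centralBinom : ℚ) / (j + 1) := by
      have h4 := succ_mul_catalan_eq_centralBinom j
      rw [← h4]
      push_cast
      field_simp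
    rw [h0]
    have h1 : (3 : ℚ) ^ k = 3 ^ (k - 2 * j) * 3 ^ (2 * j) := by
      rw [← pow_add, Nat.sub_add_cancel h]
    rw [h1, pow_mul, one_div, inv_pow]
    have h2 : (3 : ℚ) ^ j ≠ 0 := pow_ne_zero _ (by norm_num)
    have h3 : ((3 : ℚ) ^ 2) ^ j = 3 ^ j * 3 ^ j := by
      rw [← mul_pow]
      norm_num
    rw [h3]
    field_simp

open Pool.Agent.X318 in
lemma S_eq (p : ℕ) : S p = ∑ k ∈ range p, TMSum.τ (1 / 3) k * TMSum.μ (1 / 3) k / (1 - 4 * (1 / 3)) ^ k := by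
  unfold S
  refine sum_congr rfl fun k _ => ?_
  rw [T_eq, M_eq]
  have h1 : (1 - 4 * (1 / 3) : ℚ) ^ k = (-3) ^ k / (3 ^ k * 3 ^ k) := by
    rw [← mul_pow, ← div_pow]
    norm_num
  rw [h1]
  have h2 : (3 : ℚ) ^ k ≠ 0 := pow_ne_zero _ (by norm_num)
  have h3 : (-3 : ℚ) ^ k ≠ 0 := pow_ne_zero _ (by norm_num)
  field_simp

open Pool.Agent.X318.PInt in
lemma num_dvd {p : ℕ} [hp : Fact p.Prime] {n : ℕ} {x y : ℚ} (h : C p n x y) :
    (p : ℤ) ^ n ∣ (x - y).num := by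
  obtain ⟨u, v, hv, h⟩ := h.to_int
  have hv0 : (v : ℚ) ≠ 0 := by
    intro h0
    apply hv
    rw [Int.cast_eq_zero.1 h0]
    exact dvd_zero _
  have hd : ((x - y).den : ℚ) ≠ 0 := by
    exact_mod_cast (x - y).den_nz
  have h1 : ((x - y).num : ℚ) = (x - y) * (x - y).den := (Rat.mul_den_eq_num _).symm
  have h2 : ((x - y).num : ℚ) * v = p ^ n * (u * (x - y).den) := by
    rw [h1]
    nth_rewrite 1 [h]
    field_simp
  have h3 : (x - y).num * v = (p : ℤ) ^ n * (u * (x - y).den) := by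
    exact_mod_cast h2
  have hcop : IsCoprime ((p : ℤ) ^ n) v := by
    apply IsCoprime.pow_left
    exact ((Nat.prime_iff_prime_int.1 hp.out).coprime_iff_not_dvd).2 hv
  exact hcop.dvd_of_dvd_mul_right ⟨_, h3⟩

/-- **Main result.** -/
theorem result (p : ℕ) (hp : p.Prime) (hp3 : 3 < p) :
    (p % 3 = 1 → (p : ℤ) ^ 3 ∣ (S p - 2 * (p : ℚ) ^ 2).num) ∧
    (p % 3 = 2 → (p : ℤ) ^ 4 ∣ (S p - ((p : ℚ) ^ 3 - (p : ℚ) ^ 2 - 3 * p)).num) := by
  haveI : Fact p.Prime := ⟨hp⟩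
  constructor
  · intro h
    exact num_dvd (Pool.Agent.X318.TMSum.case_one h hp3 _ (S_eq p))
  · intro h
    exact num_dvd (Pool.Agent.X318.TMSum.case_two h hp3 _ (S_eq p))

end Pool.Agent.Results.MP_fcf7f4_nt.TMThreeThree
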